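import Pool.Agent.Q296.Dist.Strict

/-! # `τ_m = 12⋯(m-2) m (m-1)` is not the least avoided uniform distant pattern, for any `m ≥ 4`

For every `m ≥ 4`, `r ≥ 1` and `n ≥ (m - 1) (r + 1) + 2`, the pattern `q = 21 ⊕ 12⋯(m-4) ⊕ 21`
satisfies `|Av_n(dist_r(q))| < |Av_n(dist_r(τ_m))|`.  For `m = 3` and all `r`, `n` the proposed
inequality is true.

`Pool.Agent.Q296.DP.Contains r q π` : `π` contains `dist_r(q)`;
`Pool.Agent.Q296.DP.av r q n` : the number of `π ∈ S_n` avoiding `dist_r(q)`. -/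

set_option autoImplicit false

namespace Pool.Agent.Results.MP_0bc917_co.NotLeastAvoided

open Pool.Agent.Q296.DP Pool.Agent.Q296.Dist

/-- `12⋯(m-2) m (m-1)`: the identity of `S_m` with its last two entries exchanged -/
def tau (m : ℕ) (hm : 3 ≤ m) : Equiv.Perm (Fin m) :=
  Equiv.swap ⟨m - 2, by omega⟩ ⟨m - 1, by omega⟩

/-- `2 1 3 4 ⋯ (m-2) m (m-1)`: the identity of `S_m` with its first two entries exchanged and its
last two entries exchanged -/
def rho (m : ℕ) (hm : 4 ≤ m) : Equiv.Perm (Fin m) :=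
  Equiv.swap ⟨0, by omega⟩ ⟨1, by omega⟩ * Equiv.swap ⟨m - 2, by omega⟩ ⟨m - 1, by omega⟩

lemma is12_swap (k : ℕ) (hk : 2 ≤ k) :
    Is12 (Equiv.swap ⟨0, by omega⟩ ⟨1, by omega⟩ : Equiv.Perm (Fin k))
      (Equiv.swap ⟨0, by omega⟩ ⟨1, by omega⟩ : Equiv.Perm (Fin (k + 2))) := by
  refine ⟨fun t => ?_, ?_, ?_⟩
  · simp only [Equiv.swap_apply_def, Fin.ext_iff, Fin.val_castSucc]
    split_ifs <;> simp
  · simp only [Equiv.swap_apply_def, Fin.ext_iff, Fin.val_castSucc, Fin.val_last]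
    rw [if_neg (by omega), if_neg (by omega)]
    simp
  · simp only [Equiv.swap_apply_def, Fin.ext_iff, Fin.val_last]
    rw [if_neg (by omega), if_neg (by omega)]
    simp

lemma is21_rho (k : ℕ) (hk : 2 ≤ k) :
    Is21 (Equiv.swap ⟨0, by omega⟩ ⟨1, by omega⟩ : Equiv.Perm (Fin k))
      (rho (k + 2) (by omega)) := by
  have e1 : (⟨k + 2 - 2, by omega⟩ : Fin (k + 2)) = (Fin.last k).castSucc := by
    apply Fin.ext; simp
  have e2 : (⟨k + 2 - 1, by omega⟩ : Fin (k + 2)) = Fin.last (k + 1) := by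
    apply Fin.ext; simp
  obtain ⟨h1, h2, h3⟩ := is12_swap k hk
  unfold rho
  rw [e1, e2]
  refine ⟨fun t => ?_, ?_, ?_⟩
  · have e3 : Equiv.swap (Fin.last k).castSucc (Fin.last (k + 1)) t.castSucc.castSucc =
        t.castSucc.castSucc := by
      apply Equiv.swap_apply_of_ne_of_ne
      · intro h
        have := congrArg Fin.val h
        simp only [Fin.val_castSucc, Fin.val_last] at this
        have := t.2; omega
      · intro h
        have := congrArg Fin.val h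
        simp only [Fin.val_castSucc, Fin.val_last] at this
        have := t.2; omega
    rw [Equiv.Perm.mul_apply, e3]
    exact h1 t
  · rw [Equiv.Perm.mul_apply, Equiv.swap_apply_left (Fin.last k).castSucc]
    exact h3
  · rw [Equiv.Perm.mul_apply, Equiv.swap_apply_right _ (Fin.last (k + 1))]
    exact h2

lemma av_tau (k r n : ℕ) (hk : 3 ≤ k + 2) :
    av r (tau (k + 2) hk) n =
      av r (Equiv.swap ⟨0, by omega⟩ ⟨1, by omega⟩ : Equiv.Perm (Fin (k + 2))) n := by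
  have e : (Equiv.swap ⟨0, by omega⟩ ⟨1, by omega⟩ : Equiv.Perm (Fin (k + 2))) =
      Fin.revPerm * (tau (k + 2) hk * Fin.revPerm) := by
    unfold tau
    rw [← mul_assoc, Equiv.mul_swap_eq_swap_mul, mul_assoc, revPerm_mul_self, mul_one,
      Equiv.swap_comm]
    congr 1
    · apply Fin.ext; simp [Fin.val_rev]
    · apply Fin.ext; simp [Fin.val_rev]
  rw [e, av_comp, av_rev]

lemma is12_one (k : ℕ) : Is12 (1 : Equiv.Perm (Fin k)) (1 : Equiv.Perm (Fin (k + 2))) := by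
  refine ⟨fun t => ?_, ?_, ?_⟩ <;> simp

lemma is21_tau3 : Is21 (1 : Equiv.Perm (Fin 1)) (tau 3 le_rfl) := by
  refine ⟨fun t => ?_, ?_, ?_⟩
  · fin_cases t; rfl
  · rfl
  · rfl

/-- **Main theorem.** -/
theorem result :
    -- for every `m ≥ 4` and `r ≥ 1` the pattern `21 ⊕ 12⋯(m-4) ⊕ 21` has fewer avoiders
    (∀ (m : ℕ) (hm : 4 ≤ m) (r n : ℕ), 1 ≤ r → (m - 1) * (r + 1) + 2 ≤ n →
      av r (rho m hm) n < av r (tau m (by omega)) n) ∧
    -- for `m = 3` the proposed inequality holds, for all `r` and `n`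
    (∀ (r n : ℕ) (q : Equiv.Perm (Fin 3)), av r (tau 3 le_rfl) n ≤ av r q n) ∧
    -- Question 1 has a negative answer
    ¬ ∀ (m : ℕ) (hm : 3 ≤ m) (r : ℕ), 1 ≤ r → ∃ n₀ : ℕ, ∀ n : ℕ, n₀ < n →
      ∀ q : Equiv.Perm (Fin m), av r (tau m hm) n ≤ av r q n := by
  have main : ∀ (m : ℕ) (hm : 4 ≤ m) (r n : ℕ), 1 ≤ r → (m - 1) * (r + 1) + 2 ≤ n →
      av r (rho m hm) n < av r (tau m (by omega)) n := by
    intro m hm r n hr hn
    obtain ⟨k, rfl⟩ : ∃ k, m = k + 2 := ⟨m - 2, by omega⟩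
    rw [av_tau]
    have e : k + 2 - 1 = k + 1 := by omega
    rw [e] at hn
    exact av_lt_av (by omega) hr (is12_swap k (by omega)) (is21_rho k (by omega)) hn
  refine ⟨main, fun r n q => ?_, fun h => ?_⟩
  · have h1 : av r (tau 3 le_rfl) n ≤ av r (1 : Equiv.Perm (Fin 3)) n :=
      av_le_av r n (is12_one 1) is21_tau3
    have hq : q = 1 ∨ q = 1 * Fin.revPerm ∨ q = tau 3 le_rfl ∨ q = tau 3 le_rfl * Fin.revPerm ∨
        q = Fin.revPerm * tau 3 le_rfl ∨ q = Fin.revPerm * (tau 3 le_rfl * Fin.revPerm) := by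
      revert q
      decide
    rcases hq with rfl | rfl | rfl | rfl | rfl | rfl
    · exact h1
    · rw [av_rev]; exact h1
    · exact le_rfl
    · rw [av_rev]
    · rw [av_comp]
    · rw [av_comp, av_rev]
  · obtain ⟨n₀, hn₀⟩ := h 4 (by norm_num) 1 le_rfl
    have h1 := main 4 le_rfl 1 (n₀ + 8) le_rfl (by omega)
    have h2 := hn₀ (n₀ + 8) (by omega) (rho 4 le_rfl)
    exact absurd h1 (not_lt.2 h2)

end Pool.Agent.Results.MP_0bc917_co.NotLeastAvoided
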